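import Pool.Agent.Run7.h704.IM.BR1a

/-! Piece BR1 of `Run7.h163.IM`: the branches of `f^(-1)` and of the Jacobi weight near a zero of `f`. -/

set_option autoImplicit false
open Polynomial Filter Topology

namespace Run7.h704.IM

open Run7.h163.IM

/-- the Puiseux parameter -/
noncomputable def zt (k : ℕ) (e' : ℂ) (r : ℝ) : ℂ := ((r ^ (1 / (k : ℝ)) : ℝ) : ℂ) * e'

lemma zt_norm (k : ℕ) (e' : ℂ) (he' : ‖e'‖ = 1) (r : ℝ) (hr : 0 < r) :
    ‖zt k e' r‖ = r ^ (1 / (k : ℝ)) := by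
  rw [zt, norm_mul, he', mul_one, Complex.norm_real, Real.norm_eq_abs,
    abs_of_nonneg (Real.rpow_nonneg hr.le _)]

lemma zt_pow (k : ℕ) (hk : k ≠ 0) (e' : ℂ) (r : ℝ) (hr : 0 < r) :
    zt k e' r ^ k = (r : ℂ) * e' ^ k := by
  rw [zt, mul_pow, ← Complex.ofReal_pow, ← Real.rpow_natCast, ← Real.rpow_mul hr.le,
    one_div_mul_cancel (by exact_mod_cast hk), Real.rpow_one]

lemma zt_deriv (k : ℕ) (e' : ℂ) (r : ℝ) (hr : 0 < r) :
    HasDerivAt (zt k e') (zt k e' r / ((k : ℂ) * (r : ℂ))) r := by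
  have h1 := (Real.hasDerivAt_rpow_const (p := 1 / (k : ℝ)) (Or.inl hr.ne')).ofReal_comp
  have h2 := h1.mul_const e'
  have h3 : (((1 / (k : ℝ) * r ^ (1 / (k : ℝ) - 1) : ℝ)) : ℂ) * e' =
      zt k e' r / ((k : ℂ) * (r : ℂ)) := by
    rw [zt, Real.rpow_sub_one hr.ne']
    push_cast
    by_cases hk : (k : ℂ) = 0
    · simp [hk]
    · have : (r : ℂ) ≠ 0 := by exact_mod_cast hr.ne'
      field_simp
  rw [← h3]
  exact h2

lemma zt_ne (k : ℕ) (e' : ℂ) (he' : ‖e'‖ = 1) (r : ℝ) (hr : 0 < r) : zt k e' r ≠ 0 := by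
  rw [← norm_pos_iff, zt_norm k e' he' r hr]
  exact Real.rpow_pos_of_pos hr _

lemma zt_tendsto (k : ℕ) (hk : k ≠ 0) (e' : ℂ) : Tendsto (zt k e') (𝓝[>] 0) (𝓝 0) := by
  have h1 : Tendsto (fun r : ℝ => r ^ (1 / (k : ℝ))) (𝓝[>] 0) (𝓝 0) := by
    have hpos : 0 < 1 / (k : ℝ) := by
      have : (0 : ℝ) < k := by exact_mod_cast Nat.pos_of_ne_zero hk
      positivity
    have := (Real.continuousAt_rpow_const 0 (1 / (k : ℝ)) (Or.inr hpos.le)).tendsto
    rw [Real.zero_rpow hpos.ne'] at this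
    exact this.mono_left nhdsWithin_le_nhds
  have h2 : Tendsto (fun r : ℝ => ((r ^ (1 / (k : ℝ)) : ℝ) : ℂ) * e') (𝓝[>] 0)
      (𝓝 (((0 : ℝ) : ℂ) * e')) :=
    ((Complex.continuous_ofReal.tendsto 0).comp h1).mul_const e'
  rw [Complex.ofReal_zero, zero_mul] at h2
  exact h2

/-- One branch. -/
lemma branch (α β : ℝ) (hα : -1 < α) (hβ : -1 < β) (f : ℂ[X]) (t₀ : ℂ) (k : ℕ) (hk : k ≠ 0)
    (ρ : ℝ) (hρ : 0 < ρ) (μ : ℂ → ℂ)
    (hμ : ∀ ζ : ℂ, ‖ζ‖ < ρ → DifferentiableAt ℂ μ ζ)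
    (hμf : ∀ ζ : ℂ, ‖ζ‖ < ρ → f.eval (t₀ + ζ * Complex.exp (μ ζ)) = ζ ^ k)
    (e e' : ℂ) (he : ‖e‖ = 1) (he' : ‖e'‖ = 1) (hee : e' ^ k = e) :
    ∃ w : ℝ → ℂ, (∀ᶠ r in 𝓝[>] (0 : ℝ),
        f.eval (t₀ + zt k e' r * Complex.exp (μ (zt k e' r))) = (r : ℂ) * e ∧
        (derivative f).eval (t₀ + zt k e' r * Complex.exp (μ (zt k e' r))) ≠ 0 ∧
        (t₀ + zt k e' r * Complex.exp (μ (zt k e' r))) ≠ 1 ∧
        (t₀ + zt k e' r * Complex.exp (μ (zt k e' r))) ≠ -1 ∧
        w r ≠ 0 ∧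
        HasDerivAt (fun r => t₀ + zt k e' r * Complex.exp (μ (zt k e' r)))
          (e / (derivative f).eval (t₀ + zt k e' r * Complex.exp (μ (zt k e' r)))) r ∧
        HasDerivAt w (w r * ((α : ℂ) / (t₀ + zt k e' r * Complex.exp (μ (zt k e' r)) - 1) +
          (β : ℂ) / (t₀ + zt k e' r * Complex.exp (μ (zt k e' r)) + 1)) *
          (e / (derivative f).eval (t₀ + zt k e' r * Complex.exp (μ (zt k e' r))))) r) ∧
      Tendsto (fun r : ℝ => (r : ℂ) * w r /
        (derivative f).eval (t₀ + zt k e' r * Complex.exp (μ (zt k e' r)))) (𝓝[>] 0) (𝓝 0) ∧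
      Tendsto (fun r => t₀ + zt k e' r * Complex.exp (μ (zt k e' r))) (𝓝[>] 0) (𝓝 t₀) := by
  set z : ℝ → ℂ := zt k e' with hz
  set t : ℝ → ℂ := fun r => t₀ + z r * Complex.exp (μ (z r)) with ht
  set κ : ℝ := 1 / (k : ℝ) with hκ
  have hkR : (0 : ℝ) < k := by exact_mod_cast Nat.pos_of_ne_zero hk
  have hkC : (k : ℂ) ≠ 0 := by exact_mod_cast hk
  have hκ0 : 0 < κ := by positivity
  have he0 : e ≠ 0 := by
    intro h; rw [h, norm_zero] at he; exact zero_ne_one he
  have hzT : Tendsto z (𝓝[>] 0) (𝓝 0) := zt_tendsto k hk e'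
  -- bounds for μ and its derivative
  have hμd : DifferentiableOn ℂ μ (Metric.ball 0 ρ) := fun ζ hζ =>
    (hμ ζ (by simpa using hζ)).differentiableWithinAt
  have hμdd : ContinuousOn (deriv μ) (Metric.ball 0 ρ) :=
    (hμd.deriv Metric.isOpen_ball).continuousOn
  have hsub : Metric.closedBall (0 : ℂ) (ρ / 2) ⊆ Metric.ball 0 ρ :=
    Metric.closedBall_subset_ball (by linarith)
  obtain ⟨K₁, hK₁⟩ := (isCompact_closedBall (0 : ℂ) (ρ / 2)).exists_bound_of_continuousOn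
    (hμd.continuousOn.mono hsub)
  obtain ⟨K₂, hK₂⟩ := (isCompact_closedBall (0 : ℂ) (ρ / 2)).exists_bound_of_continuousOn
    (hμdd.mono hsub)
  have hμc : ContinuousAt μ 0 := (hμ 0 (by simpa using hρ)).continuousAt
  -- tendsto t
  have htT : Tendsto t (𝓝[>] 0) (𝓝 t₀) := by
    have h1 : Tendsto (fun r => μ (z r)) (𝓝[>] 0) (𝓝 (μ 0)) := hμc.tendsto.comp hzT
    have h2 := tendsto_const_nhds (x := t₀) |>.add (hzT.mul
      ((Complex.continuous_exp.tendsto _).comp h1))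
    simpa using h2
  -- a first interval
  obtain ⟨ε₀, hε₀, hsmall⟩ : ∃ ε₀ > (0 : ℝ), ∀ r : ℝ, 0 < r → r < ε₀ → ‖z r‖ < ρ / 2 := by
    have h1 : ∀ᶠ r in 𝓝[>] (0 : ℝ), ‖z r‖ < ρ / 2 := by
      have := (hzT.norm).eventually_lt_const (u := ρ / 2) (by simpa using half_pos hρ)
      simpa using this
    obtain ⟨ε, hε, h2⟩ := (mem_nhdsGT_iff_exists_Ioo_subset).1 h1
    exact ⟨ε, hε, fun r h3 h4 => h2 ⟨h3, h4⟩⟩
  have hlt : ∀ r : ℝ, 0 < r → r < ε₀ → ‖z r‖ < ρ := fun r h1 h2 =>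
    (hsmall r h1 h2).trans (by linarith)
  have hft : ∀ r : ℝ, 0 < r → r < ε₀ → f.eval (t r) = (r : ℂ) * e := by
    intro r h1 h2
    show f.eval (t₀ + z r * Complex.exp (μ (z r))) = _
    rw [hμf _ (hlt r h1 h2), ← hee]
    exact zt_pow k hk e' r h1
  -- derivative of t
  set d : ℝ → ℂ := fun r => Complex.exp (μ (z r)) * (1 + z r * deriv μ (z r)) *
    (z r / ((k : ℂ) * (r : ℂ))) with hd
  have htd : ∀ r : ℝ, 0 < r → r < ε₀ → HasDerivAt t (d r) r := by
    intro r h1 h2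
    have h3 : HasDerivAt μ (deriv μ (z r)) (z r) := (hμ _ (hlt r h1 h2)).hasDerivAt
    have h4 : HasDerivAt (fun ζ : ℂ => t₀ + ζ * Complex.exp (μ ζ))
        (1 * Complex.exp (μ (z r)) + z r * (Complex.exp (μ (z r)) * deriv μ (z r))) (z r) :=
      ((hasDerivAt_id (z r)).mul h3.cexp).const_add t₀
    have h5 := HasDerivAt.scomp (x := r) h4 (zt_deriv k e' r h1)
    have h6 : (zt k e' r / ((k : ℂ) * (r : ℂ))) •
        (1 * Complex.exp (μ (z r)) + z r * (Complex.exp (μ (z r)) * deriv μ (z r))) = d r := by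
      simp only [hd, smul_eq_mul, hz]; ring
    rw [h6] at h5
    exact h5
  have hdf : ∀ r : ℝ, 0 < r → r < ε₀ → d r * (derivative f).eval (t r) = e := by
    intro r h1 h2
    have h3 : HasDerivAt (fun s : ℝ => f.eval (t s)) (d r • (derivative f).eval (t r)) r :=
      HasDerivAt.scomp (x := r) (f.hasDerivAt (t r)) (htd r h1 h2)
    have h4 : HasDerivAt (fun s : ℝ => (s : ℂ) * e) (1 * e) r := by
      exact (Complex.ofRealCLM.hasDerivAt (x := r)).mul_const e
    have h5 : (fun s : ℝ => f.eval (t s)) =ᶠ[𝓝 r] (fun s : ℝ => (s : ℂ) * e) := by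
      filter_upwards [Ioo_mem_nhds h1 h2] with s hs
      exact hft s hs.1 hs.2
    have h6 := h3.unique (h4.congr_of_eventuallyEq h5)
    simpa using h6
  have hf'0 : ∀ r : ℝ, 0 < r → r < ε₀ → (derivative f).eval (t r) ≠ 0 := by
    intro r h1 h2 h3
    have := hdf r h1 h2
    rw [h3, mul_zero] at this
    exact he0 this.symm
  have hdeq : ∀ r : ℝ, 0 < r → r < ε₀ → e / (derivative f).eval (t r) = d r := by
    intro r h1 h2
    rw [← hdf r h1 h2, mul_div_assoc, div_self (hf'0 r h1 h2), mul_one]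
  -- the logarithms
  have hlog : ∀ p : ℂ, ∃ M : ℝ → ℂ, ∃ K : ℝ, 0 ≤ K ∧ ∀ᶠ r in 𝓝[>] (0 : ℝ),
      t r ≠ p ∧ HasDerivAt M (d r / (t r - p)) r ∧
      |(M r).re - (if p = t₀ then κ else 0) * Real.log r| ≤ K := by
    intro p
    have hI : ∀ᶠ r in 𝓝[>] (0 : ℝ), 0 < r ∧ r < ε₀ := by
      have := Ioo_mem_nhdsGT hε₀
      exact this
    by_cases hp : p = t₀
    · refine ⟨fun r => ((κ * Real.log r : ℝ) : ℂ) + μ (z r), |K₁|, abs_nonneg _, ?_⟩
      filter_upwards [hI] with r hr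
      obtain ⟨h1, h2⟩ := hr
      have hz0 : z r ≠ 0 := zt_ne k e' he' r h1
      have hexp : Complex.exp (μ (z r)) ≠ 0 := Complex.exp_ne_zero _
      have hrC : (r : ℂ) ≠ 0 := by exact_mod_cast h1.ne'
      have htp : t r - p = z r * Complex.exp (μ (z r)) := by simp [ht, hp]
      refine ⟨?_, ?_, ?_⟩
      · intro h
        rw [h, sub_self] at htp
        exact (mul_ne_zero hz0 hexp) htp.symm
      · have h3 : HasDerivAt (fun s : ℝ => ((κ * Real.log s : ℝ) : ℂ)) ((κ * r⁻¹ : ℝ) : ℂ) r :=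
          ((Real.hasDerivAt_log h1.ne').const_mul κ).ofReal_comp
        have h4 : HasDerivAt (fun s => μ (z s)) ((z r / ((k : ℂ) * (r : ℂ))) • deriv μ (z r)) r :=
          HasDerivAt.scomp (x := r) (hμ _ (hlt r h1 h2)).hasDerivAt (zt_deriv k e' r h1)
        have h5 := h3.add h4
        have h6 : d r / (t r - p) = ((κ * r⁻¹ : ℝ) : ℂ) + (z r / ((k : ℂ) * (r : ℂ))) •
            deriv μ (z r) := by
          rw [htp]
          simp only [hd, hκ, smul_eq_mul]
          push_cast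
          field_simp
        rw [h6]
        exact h5
      · simp only [hp, if_true, Complex.add_re, Complex.ofReal_re]
        rw [add_sub_cancel_left]
        refine (Complex.abs_re_le_norm _).trans ((hK₁ (z r) ?_).trans (le_abs_self _))
        simpa using (hsmall r h1 h2).le
    · have hp' : t₀ - p ≠ 0 := sub_ne_zero.2 (Ne.symm hp)
      have hq : Tendsto (fun r => (t r - p) / (t₀ - p)) (𝓝[>] 0) (𝓝 1) := by
        have := (htT.sub_const p).div_const (t₀ - p)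
        rwa [div_self hp'] at this
      have hq1 : ∀ᶠ r in 𝓝[>] (0 : ℝ), (t r - p) / (t₀ - p) ∈ Complex.slitPlane :=
        hq.eventually (Complex.isOpen_slitPlane.mem_nhds Complex.one_mem_slitPlane)
      have hq2 : Tendsto (fun r => Complex.log ((t r - p) / (t₀ - p))) (𝓝[>] 0) (𝓝 0) := by
        have := (continuousAt_clog Complex.one_mem_slitPlane).tendsto.comp hq
        rw [Complex.log_one] at this
        exact this
      have hq3 : ∀ᶠ r in 𝓝[>] (0 : ℝ), ‖Complex.log ((t r - p) / (t₀ - p))‖ < 1 := by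
        have := (hq2.norm).eventually_lt_const (u := 1) (by simp)
        simpa using this
      refine ⟨fun r => Complex.log ((t r - p) / (t₀ - p)), 1, zero_le_one, ?_⟩
      filter_upwards [hI, hq1, hq3] with r hr hs hb
      obtain ⟨h1, h2⟩ := hr
      have hne : t r ≠ p := by
        intro h
        rw [h, sub_self, zero_div] at hs
        exact Complex.slitPlane_ne_zero hs rfl
      refine ⟨hne, ?_, ?_⟩
      · have h3 : HasDerivAt (fun s => (t s - p) / (t₀ - p)) (d r / (t₀ - p)) r :=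
          ((htd r h1 h2).sub_const p).div_const _
        have h4 := h3.clog_real hs
        have h5 : d r / (t₀ - p) / ((t r - p) / (t₀ - p)) = d r / (t r - p) := by
          have : t r - p ≠ 0 := sub_ne_zero.2 hne
          field_simp
        rw [h5] at h4
        exact h4
      · simp only [hp, if_false, zero_mul, sub_zero]
        exact (Complex.abs_re_le_norm _).trans hb.le
  obtain ⟨M, K, hK0, hM⟩ := hlog 1
  obtain ⟨M', K', hK0', hM'⟩ := hlog (-1)
  have hI : ∀ᶠ r in 𝓝[>] (0 : ℝ), 0 < r ∧ r < ε₀ := Ioo_mem_nhdsGT hε₀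
  refine ⟨fun r => Complex.exp ((α : ℂ) * M r + (β : ℂ) * M' r), ?_, ?_, htT⟩
  · filter_upwards [hI, hM, hM'] with r hr h h'
    obtain ⟨h1, h2⟩ := hr
    obtain ⟨a1, a2, a3⟩ := h
    obtain ⟨b1, b2, b3⟩ := h'
    refine ⟨hft r h1 h2, hf'0 r h1 h2, a1, b1, Complex.exp_ne_zero _, ?_, ?_⟩
    · have := htd r h1 h2
      rw [← hdeq r h1 h2] at this
      exact this
    · have h3 := ((a2.const_mul (α : ℂ)).add (b2.const_mul (β : ℂ))).cexp
      have h4 : Complex.exp ((α : ℂ) * M r + (β : ℂ) * M' r) *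
          ((α : ℂ) * (d r / (t r - 1)) + (β : ℂ) * (d r / (t r - -1))) =
          Complex.exp ((α : ℂ) * M r + (β : ℂ) * M' r) *
            ((α : ℂ) / (t r - 1) + (β : ℂ) / (t r + 1)) * (e / (derivative f).eval (t r)) := by
        rw [hdeq r h1 h2, sub_neg_eq_add]
        ring
      rw [← h4]
      exact h3
  · -- the limit
    set δ : ℝ := α * (if (1 : ℂ) = t₀ then κ else 0) + β * (if (-1 : ℂ) = t₀ then κ else 0) with hδ
    have hδ0 : 0 < κ + δ := by
      rw [hδ]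
      by_cases h1 : (1 : ℂ) = t₀
      · have h2 : ¬ ((-1 : ℂ) = t₀) := by
          rw [← h1]; norm_num
        rw [if_pos h1, if_neg h2]
        nlinarith
      · by_cases h2 : (-1 : ℂ) = t₀
        · rw [if_neg h1, if_pos h2]
          nlinarith
        · rw [if_neg h1, if_neg h2]
          simpa using hκ0
    set CC : ℝ := Real.exp (|α| * K + |β| * K') * (Real.exp |K₁| * (1 + ρ / 2 * |K₂|)) / k with hCC
    have hlim : Tendsto (fun r : ℝ => CC * r ^ (κ + δ)) (𝓝[>] 0) (𝓝 0) := by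
      have h1 : Tendsto (fun r : ℝ => r ^ (κ + δ)) (𝓝[>] 0) (𝓝 0) := by
        have := (Real.continuousAt_rpow_const 0 (κ + δ) (Or.inr hδ0.le)).tendsto
        rw [Real.zero_rpow hδ0.ne'] at this
        exact this.mono_left nhdsWithin_le_nhds
      simpa using h1.const_mul CC
    refine squeeze_zero_norm' ?_ hlim
    filter_upwards [hI, hM, hM'] with r hr h h'
    obtain ⟨h1, h2⟩ := hr
    obtain ⟨a1, a2, a3⟩ := h
    obtain ⟨b1, b2, b3⟩ := h'
    have hnd : ‖((r : ℂ) * Complex.exp ((α : ℂ) * M r + (β : ℂ) * M' r) /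
        (derivative f).eval (t r))‖ = ‖Complex.exp ((α : ℂ) * M r + (β : ℂ) * M' r)‖ *
          (r * ‖d r‖) := by
      rw [← hdeq r h1 h2, norm_div, norm_div, norm_mul, he, Complex.norm_real, Real.norm_eq_abs,
        abs_of_pos h1]
      ring
    rw [hnd]
    have hw : ‖Complex.exp ((α : ℂ) * M r + (β : ℂ) * M' r)‖ ≤
        Real.exp (|α| * K + |β| * K') * r ^ δ := by
      rw [Complex.norm_exp, Real.rpow_def_of_pos h1, ← Real.exp_add]
      apply Real.exp_le_exp.2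
      simp only [Complex.add_re, Complex.re_ofReal_mul]
      have c1 : α * (M r).re - α * ((if (1 : ℂ) = t₀ then κ else 0) * Real.log r) ≤ |α| * K := by
        rw [← mul_sub]
        refine (le_abs_self _).trans ?_
        rw [abs_mul]
        exact mul_le_mul_of_nonneg_left a3 (abs_nonneg _)
      have c2 : β * (M' r).re - β * ((if (-1 : ℂ) = t₀ then κ else 0) * Real.log r) ≤
          |β| * K' := by
        rw [← mul_sub]
        refine (le_abs_self _).trans ?_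
        rw [abs_mul]
        exact mul_le_mul_of_nonneg_left b3 (abs_nonneg _)
      have c3 : Real.log r * δ = α * ((if (1 : ℂ) = t₀ then κ else 0) * Real.log r) +
          β * ((if (-1 : ℂ) = t₀ then κ else 0) * Real.log r) := by rw [hδ]; ring
      rw [c3]
      linarith
    have hdn : r * ‖d r‖ ≤ (Real.exp |K₁| * (1 + ρ / 2 * |K₂|)) / k * r ^ κ := by
      have hzr : ‖z r‖ = r ^ κ := zt_norm k e' he' r h1
      have hb : z r ∈ Metric.closedBall (0 : ℂ) (ρ / 2) := by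
        simpa using (hsmall r h1 h2).le
      have e1 : ‖Complex.exp (μ (z r))‖ ≤ Real.exp |K₁| := by
        rw [Complex.norm_exp]
        exact Real.exp_le_exp.2 (((le_abs_self _).trans (Complex.abs_re_le_norm _)).trans
          ((hK₁ _ hb).trans (le_abs_self _)))
      have e2 : ‖1 + z r * deriv μ (z r)‖ ≤ 1 + ρ / 2 * |K₂| := by
        refine (norm_add_le _ _).trans ?_
        rw [norm_one, norm_mul]
        have := mul_le_mul (hsmall r h1 h2).le ((hK₂ _ hb).trans (le_abs_self _))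
          (norm_nonneg _) (by positivity)
        linarith
      have e3 : r * ‖d r‖ = ‖Complex.exp (μ (z r))‖ * ‖1 + z r * deriv μ (z r)‖ / k * r ^ κ := by
        simp only [hd]
        rw [norm_mul, norm_mul, norm_div, norm_mul, hzr, Complex.norm_real, Real.norm_eq_abs,
          abs_of_pos h1, Complex.norm_natCast]
        field_simp
      rw [e3]
      have hrk : 0 ≤ r ^ κ := Real.rpow_nonneg h1.le _
      have e4 : ‖Complex.exp (μ (z r))‖ * ‖1 + z r * deriv μ (z r)‖ ≤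
          Real.exp |K₁| * (1 + ρ / 2 * |K₂|) :=
        mul_le_mul e1 e2 (norm_nonneg _) (Real.exp_pos _).le
      gcongr
    have hfin : CC * r ^ (κ + δ) = (Real.exp (|α| * K + |β| * K') * r ^ δ) *
        ((Real.exp |K₁| * (1 + ρ / 2 * |K₂|)) / k * r ^ κ) := by
      rw [hCC, Real.rpow_add h1]; ring
    rw [hfin]
    exact mul_le_mul hw hdn (by positivity) (by positivity)

theorem BR1 : S_BR1 := by
  intro α β hα hβ f t₀ hf h0 e he
  obtain ⟨ρ, hρ, μ, hμ, hμf, hinj⟩ := uniformization f hf t₀ h0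
  set k := f.rootMultiplicity t₀ with hk
  have hk0 : k ≠ 0 := by
    have := (Polynomial.rootMultiplicity_pos hf).2 (show f.IsRoot t₀ from h0)
    omega
  have hkC : (k : ℂ) ≠ 0 := by exact_mod_cast hk0
  set ω : ℂ := Complex.exp (2 * Real.pi * Complex.I / k) with hω
  have hprim : IsPrimitiveRoot ω k := Complex.isPrimitiveRoot_exp k hk0
  set e₀ : ℂ := e ^ (1 / (k : ℂ)) with he₀
  have he₀k : e₀ ^ k = e := by
    rw [he₀, one_div, Complex.cpow_nat_inv_pow _ hk0]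
  have he0 : e ≠ 0 := by
    intro h; rw [h, norm_zero] at he; exact zero_ne_one he
  have he₀0 : e₀ ≠ 0 := by
    intro h
    rw [h, zero_pow hk0] at he₀k
    exact he0 he₀k.symm
  have hek : ∀ j : Fin k, (e₀ * ω ^ (j : ℕ)) ^ k = e := by
    intro j
    rw [mul_pow, he₀k, ← pow_mul, mul_comm (j : ℕ) k, pow_mul, hprim.pow_eq_one, one_pow, mul_one]
  have hen : ∀ j : Fin k, ‖e₀ * ω ^ (j : ℕ)‖ = 1 := by
    intro j
    have := congrArg norm (hek j)
    rw [norm_pow, he] at this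
    exact (pow_eq_one_iff_of_nonneg (norm_nonneg _) hk0).1 this
  choose w hw1 hw2 hw3 using fun j : Fin k =>
    branch α β hα hβ f t₀ k hk0 ρ hρ μ hμ hμf e (e₀ * ω ^ (j : ℕ)) he (hen j) (hek j)
  have hsm : ∀ᶠ r in 𝓝[>] (0 : ℝ), ∀ j : Fin k, ‖zt k (e₀ * ω ^ (j : ℕ)) r‖ < ρ := by
    rw [eventually_all]
    intro j
    have := ((zt_tendsto k hk0 (e₀ * ω ^ (j : ℕ))).norm).eventually_lt_const (u := ρ)
      (by simpa using hρ)
    simpa using this
  have hall := hsm.and (eventually_all.2 hw1)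
  obtain ⟨ε, hε, h2⟩ := (mem_nhdsGT_iff_exists_Ioo_subset).1 hall
  refine ⟨ε, hε, fun j r => t₀ + zt k (e₀ * ω ^ (j : ℕ)) r *
    Complex.exp (μ (zt k (e₀ * ω ^ (j : ℕ)) r)), w, ?_, ?_⟩
  · intro r hr hr2 i j hij
    have h3 := (h2 ⟨hr, hr2⟩).1
    have h4 := hinj _ _ (h3 i) (h3 j) hij
    have hrk : ((r ^ (1 / (k : ℝ)) : ℝ) : ℂ) ≠ 0 := by
      exact_mod_cast (Real.rpow_pos_of_pos hr _).ne'
    have h5 := mul_left_cancel₀ hrk h4
    have h6 := mul_left_cancel₀ he₀0 h5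
    exact Fin.ext (hprim.pow_inj i.2 j.2 h6)
  · intro j
    refine ⟨fun r hr hr2 => ?_, hw2 j, hw3 j⟩
    exact (h2 ⟨hr, hr2⟩).2 j

end Run7.h704.IM
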