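import Pool.Agent.Run7.h163.IM.Iface

/-! Local uniformization near a zero of a polynomial (for piece BR1 of `Run7.h163.IM`). -/

set_option autoImplicit false
open Polynomial Filter Topology

namespace Run7.h704.IM

open Run7.h163.IM

/-- Near a zero `t₀` of multiplicity `k` the equation `f(t) = ζ^k` has the solution
`t = t₀ + ζ exp (μ ζ)`, `μ` holomorphic, injective in `ζ`. -/
lemma uniformization (f : ℂ[X]) (hf : f ≠ 0) (t₀ : ℂ) (h0 : f.eval t₀ = 0) :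
    ∃ ρ > (0 : ℝ), ∃ μ : ℂ → ℂ, (∀ ζ : ℂ, ‖ζ‖ < ρ → DifferentiableAt ℂ μ ζ) ∧
      (∀ ζ : ℂ, ‖ζ‖ < ρ → f.eval (t₀ + ζ * Complex.exp (μ ζ)) = ζ ^ f.rootMultiplicity t₀) ∧
      (∀ ζ ζ' : ℂ, ‖ζ‖ < ρ → ‖ζ'‖ < ρ →
        t₀ + ζ * Complex.exp (μ ζ) = t₀ + ζ' * Complex.exp (μ ζ') → ζ = ζ') := by
  set k := f.rootMultiplicity t₀ with hk
  have hk0 : k ≠ 0 := by
    have := (Polynomial.rootMultiplicity_pos hf).2 (show f.IsRoot t₀ from h0)
    omega
  have hkC : (k : ℂ) ≠ 0 := by exact_mod_cast hk0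
  set g := f /ₘ (X - C t₀) ^ k with hg
  have hφ : g.eval t₀ ≠ 0 := Polynomial.eval_divByMonic_pow_rootMultiplicity_ne_zero _ hf
  have hfg : ∀ t : ℂ, f.eval t = (t - t₀) ^ k * g.eval t := by
    intro t
    conv_lhs => rw [← Polynomial.pow_mul_divByMonic_rootMultiplicity_eq f t₀]
    simp [hg, hk]
  set c₀ : ℂ := (g.eval t₀) ^ (1 / (k : ℂ)) with hc₀
  have hc₀k : c₀ ^ k = g.eval t₀ := by
    rw [hc₀, one_div, Complex.cpow_nat_inv_pow _ hk0]
  have hc₀0 : c₀ ≠ 0 := by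
    intro h
    rw [h, zero_pow hk0] at hc₀k
    exact hφ hc₀k.symm
  set q : ℂ → ℂ := fun t => g.eval t / g.eval t₀ with hq
  set ℓ : ℂ → ℂ := fun t => (1 / (k : ℂ)) * Complex.log (q t) with hℓ
  set F : ℂ → ℂ := fun t => (t - t₀) * (c₀ * Complex.exp (ℓ t)) with hF
  have hqd : Differentiable ℂ q := by
    intro t
    exact (g.differentiable t).div_const _
  have hq0 : q t₀ = 1 := by simp [hq, hφ]
  have hℓ0 : ℓ t₀ = 0 := by simp [hℓ, hq0]
  -- the good open set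
  set N : Set ℂ := q ⁻¹' Complex.slitPlane with hN
  have hNo : IsOpen N := Complex.isOpen_slitPlane.preimage hqd.continuous
  have ht₀N : t₀ ∈ N := by
    show q t₀ ∈ Complex.slitPlane
    rw [hq0]; exact Complex.one_mem_slitPlane
  have hℓd : ∀ t ∈ N, DifferentiableAt ℂ ℓ t := by
    intro t ht
    exact ((hqd t).clog ht).const_mul _
  have hFd : ∀ t ∈ N, DifferentiableAt ℂ F t := by
    intro t ht
    exact (differentiableAt_id.sub_const _).mul (((hℓd t ht).cexp).const_mul _)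
  have hFk : ∀ t ∈ N, F t ^ k = f.eval t := by
    intro t ht
    have hqt : q t ≠ 0 := Complex.slitPlane_ne_zero ht
    rw [hfg, hF]
    simp only
    rw [mul_pow, mul_pow, hc₀k, ← Complex.exp_nat_mul, hℓ]
    simp only
    rw [← mul_assoc (k : ℂ), mul_one_div_cancel hkC, one_mul, Complex.exp_log hqt, hq]
    simp only
    field_simp
  have hFan : AnalyticAt ℂ F t₀ := by
    have : DifferentiableOn ℂ F N := fun t ht => (hFd t ht).differentiableWithinAt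
    exact this.analyticAt (hNo.mem_nhds ht₀N)
  have hFderiv : HasDerivAt F c₀ t₀ := by
    have h1 := (((hasDerivAt_id t₀).sub_const t₀)).mul
      (((hℓd t₀ ht₀N).hasDerivAt.cexp).const_mul c₀)
    have h2 : (1 : ℂ) * (c₀ * Complex.exp (ℓ t₀)) +
        (id t₀ - t₀) * (c₀ * (Complex.exp (ℓ t₀) * deriv ℓ t₀)) = c₀ := by
      simp [hℓ0]
    rw [← h2]
    exact h1
  have hFs : HasStrictDerivAt F c₀ t₀ := by
    have := hFan.hasStrictDerivAt
    rwa [hFderiv.deriv] at this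
  have hFt₀ : F t₀ = 0 := by simp [hF]
  set Φ := (hFs.hasStrictFDerivAt_equiv hc₀0).toOpenPartialHomeomorph F with hΦ
  have hΦF : ∀ t, Φ t = F t := fun t => rfl
  have ht₀s : t₀ ∈ Φ.source := HasStrictFDerivAt.mem_toOpenPartialHomeomorph_source _
  have h0t : (0 : ℂ) ∈ Φ.target := by
    have := Φ.map_source ht₀s
    rwa [hΦF, hFt₀] at this
  have hψ0 : Φ.symm 0 = t₀ := by
    have := Φ.left_inv ht₀s
    rwa [hΦF, hFt₀] at this
  -- neighbourhood where F' is nonzero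
  have hF'c : ContinuousAt (deriv F) t₀ := hFan.deriv.continuousAt
  have hev : ∀ᶠ t in 𝓝 t₀, t ∈ N ∧ deriv F t ≠ 0 := by
    have hx : ∀ᶠ t in 𝓝 t₀, t ∈ N := hNo.mem_nhds ht₀N
    refine hx.and (hF'c.eventually_ne ?_)
    rw [hFderiv.deriv]; exact hc₀0
  have hψc : ContinuousAt Φ.symm 0 := Φ.symm.continuousAt h0t
  have hev2 : ∀ᶠ ζ in 𝓝 (0 : ℂ), ζ ∈ Φ.target ∧ Φ.symm ζ ∈ N ∧ deriv F (Φ.symm ζ) ≠ 0 := by
    have hx : ∀ᶠ ζ in 𝓝 (0 : ℂ), ζ ∈ Φ.target := Φ.open_target.mem_nhds h0t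
    refine hx.and ?_
    have : Tendsto Φ.symm (𝓝 0) (𝓝 t₀) := by
      have := hψc.tendsto
      rwa [hψ0] at this
    exact this.eventually hev
  obtain ⟨ρ, hρ, hball⟩ := Metric.eventually_nhds_iff.1 hev2
  obtain ⟨lc, hlc⟩ : ∃ lc : ℂ, Complex.exp lc = c₀ := ⟨Complex.log c₀, Complex.exp_log hc₀0⟩
  have hsol : ∀ ζ : ℂ, ‖ζ‖ < ρ → t₀ + ζ * Complex.exp (-lc - ℓ (Φ.symm ζ)) = Φ.symm ζ := by
    intro ζ hζ
    obtain ⟨h1, h2, h3⟩ := hball (by simpa using hζ)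
    have h4 : F (Φ.symm ζ) = ζ := by
      rw [← hΦF]; exact Φ.right_inv h1
    have h5 : (Φ.symm ζ - t₀) * (c₀ * Complex.exp (ℓ (Φ.symm ζ))) = ζ := h4
    have h6 : Complex.exp (-lc - ℓ (Φ.symm ζ)) * (c₀ * Complex.exp (ℓ (Φ.symm ζ))) = 1 := by
      rw [← hlc, ← Complex.exp_add, ← Complex.exp_add]
      ring_nf
      exact Complex.exp_zero
    have h7 : ζ * Complex.exp (-lc - ℓ (Φ.symm ζ)) = Φ.symm ζ - t₀ := by
      nth_rewrite 1 [← h5]
      rw [mul_assoc, mul_comm _ (Complex.exp (-lc - _)), h6, mul_one]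
    rw [h7]; ring
  refine ⟨ρ, hρ, fun ζ => -lc - ℓ (Φ.symm ζ), ?_, ?_, ?_⟩
  · intro ζ hζ
    obtain ⟨h1, h2, h3⟩ := hball (by simpa using hζ)
    have h4 : HasDerivAt F (deriv F (Φ.symm ζ)) (Φ.symm ζ) := (hFd _ h2).hasDerivAt
    have h5 : HasDerivAt Φ.symm (deriv F (Φ.symm ζ))⁻¹ ζ := by
      refine Φ.hasDerivAt_symm h1 h3 ?_
      exact h4
    exact ((differentiableAt_const _).sub ((hℓd _ h2).comp ζ h5.differentiableAt))
  · intro ζ hζ
    obtain ⟨h1, h2, h3⟩ := hball (by simpa using hζ)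
    simp only
    rw [hsol ζ hζ, ← hFk _ h2]
    congr 1
    rw [← hΦF]; exact Φ.right_inv h1
  · intro ζ ζ' hζ hζ' h
    simp only at h
    rw [hsol ζ hζ, hsol ζ' hζ'] at h
    exact Φ.symm.injOn (hball (by simpa using hζ)).1 (hball (by simpa using hζ')).1 h

end Run7.h704.IM
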