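import Pool.Agent.Run7.h163.IM.Iface

/-! Piece BR2 of `Run7.h163.IM`: the branches at the zeros of `f` put together. -/

set_option autoImplicit false
open Polynomial Filter Topology

namespace Run7.h704.IM

open Run7.h163.IM

theorem BR2 (H : S_BR1) : S_BR := by
  intro α β hα hβ f hdeg e he
  have hf : f ≠ 0 := by
    rintro rfl
    simp at hdeg
  -- the index type
  let Z := {z : ℂ // z ∈ f.roots.toFinset}
  have hZ : ∀ z : Z, f.eval z.1 = 0 := fun z =>
    (Polynomial.mem_roots hf).1 (Multiset.mem_toFinset.1 z.2)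
  have hcard : Fintype.card (Σ z : Z, Fin (f.rootMultiplicity z.1)) = f.natDegree := by
    rw [Fintype.card_sigma]
    simp only [Fintype.card_fin]
    have h1 : ∑ z : Z, f.rootMultiplicity z.1 = ∑ z ∈ f.roots.toFinset, f.rootMultiplicity z :=
      Finset.sum_coe_sort f.roots.toFinset (fun z => f.rootMultiplicity z)
    rw [h1]
    have h2 : ∀ z ∈ f.roots.toFinset, f.rootMultiplicity z = f.roots.count z := by
      intro z _
      rw [Polynomial.count_roots]
    rw [Finset.sum_congr rfl h2, Multiset.toFinset_sum_count_eq]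
    exact (IsAlgClosed.splits f).natDegree_eq_card_roots.symm
  let E : Fin f.natDegree ≃ Σ z : Z, Fin (f.rootMultiplicity z.1) :=
    (Fintype.equivFinOfCardEq hcard).symm
  choose ε hε t w hinj h using fun z : Z => H α β hα hβ f z.1 hf (hZ z) e he
  -- all conditions, eventually
  have hev1 : ∀ᶠ r in 𝓝[>] (0 : ℝ), ∀ z : Z, 0 < r ∧ r < ε z := by
    rw [eventually_all]
    intro z
    exact Ioo_mem_nhdsGT (hε z)
  have hev2 : ∀ᶠ r in 𝓝[>] (0 : ℝ), ∀ a b : (Σ z : Z, Fin (f.rootMultiplicity z.1)),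
      a.1 ≠ b.1 → t a.1 a.2 r ≠ t b.1 b.2 r := by
    rw [eventually_all]
    intro a
    rw [eventually_all]
    intro b
    by_cases hab : a.1 = b.1
    · exact Filter.Eventually.of_forall (fun r h => absurd hab h)
    · have ha := (h a.1 a.2).2.2
      have hb := (h b.1 b.2).2.2
      have hne : a.1.1 ≠ b.1.1 := fun h => hab (Subtype.ext h)
      have h1 : Tendsto (fun r => t a.1 a.2 r - t b.1 b.2 r) (𝓝[>] 0) (𝓝 (a.1.1 - b.1.1)) :=
        ha.sub hb
      have h2 := h1.eventually_ne (sub_ne_zero.2 hne)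
      filter_upwards [h2] with r hr _
      exact sub_ne_zero.1 hr
  obtain ⟨η, hη, hI⟩ := (mem_nhdsGT_iff_exists_Ioo_subset).1 (hev1.and hev2)
  refine ⟨η, hη, fun j => t (E j).1 (E j).2, fun j => w (E j).1 (E j).2, ?_, ?_⟩
  · intro r hr hr2 i j hij
    obtain ⟨h1, h2⟩ := hI ⟨hr, hr2⟩
    have hij' : t (E i).1 (E i).2 r = t (E j).1 (E j).2 r := hij
    have h3 : (E i).1 = (E j).1 := by
      by_contra hne
      exact h2 (E i) (E j) hne hij'
    apply E.injective
    generalize E i = a at *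
    generalize E j = b at *
    obtain ⟨a1, a2⟩ := a
    obtain ⟨b1, b2⟩ := b
    simp only at h3
    subst h3
    have h4 : a2 = b2 := hinj a1 r (h1 a1).1 (h1 a1).2 hij'
    rw [h4]
  · intro j
    refine ⟨fun r hr hr2 => ?_, (h (E j).1 (E j).2).2.1⟩
    have h1 := (hI ⟨hr, hr2⟩).1 (E j).1
    exact (h (E j).1 (E j).2).1 r h1.1 h1.2

end Run7.h704.IM
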