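import Pool.Agent.Run7.h163.IM.Iface

/-! Piece DIR of `Run7.h163.IM`: a direction staying away from the curve `f([-1,1])` near `0`. -/

set_option autoImplicit false
open Polynomial Filter Topology

namespace Run7.h704.IM

open Run7.h163.IM

/-- The key inequality in the plane. -/
lemma plane_ineq (e φ : ℂ) (he : ‖e‖ = 1) (hφ : φ ≠ 0)
    (h : (e * (starRingEnd ℂ) φ).im ≠ 0) :
    ∃ c > (0 : ℝ), ∀ r s : ℝ, 0 ≤ r →
      c * (r + |s|) ≤ ‖(r : ℂ) * e - (s : ℂ) * φ‖ := by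
  set η : ℝ := (e * (starRingEnd ℂ) φ).im with hη
  have hφ0 : 0 < ‖φ‖ := norm_pos_iff.2 hφ
  have hη0 : 0 < |η| := abs_pos.2 h
  set A : ℝ := 1 + 2 * ‖φ‖ / |η| with hA
  have hA0 : 0 < A := by positivity
  refine ⟨min 1 ‖φ‖ / A, by positivity, fun r s hr => ?_⟩
  set N : ℝ := ‖(r : ℂ) * e - (s : ℂ) * φ‖ with hN
  have h1 : r * |η| ≤ N * ‖φ‖ := by
    have h2 : (((r : ℂ) * e - (s : ℂ) * φ) * (starRingEnd ℂ) φ).im = r * η := by
      have : ((r : ℂ) * e - (s : ℂ) * φ) * (starRingEnd ℂ) φ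
          = (r : ℂ) * (e * (starRingEnd ℂ) φ) - (s : ℂ) * (φ * (starRingEnd ℂ) φ) := by ring
      rw [this, Complex.mul_conj, Complex.sub_im, ← Complex.ofReal_mul, Complex.ofReal_im,
        Complex.im_ofReal_mul, sub_zero, hη]
    have h3 := Complex.abs_im_le_norm (((r : ℂ) * e - (s : ℂ) * φ) * (starRingEnd ℂ) φ)
    rw [h2, norm_mul, RCLike.norm_conj, abs_mul, abs_of_nonneg hr] at h3
    exact h3
  have h4 : |s| * ‖φ‖ - r ≤ N := by
    have h5 : ‖(s : ℂ) * φ‖ - ‖(r : ℂ) * e‖ ≤ ‖(s : ℂ) * φ - (r : ℂ) * e‖ := norm_sub_norm_le _ _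
    rw [norm_sub_rev, norm_mul, norm_mul, he, Complex.norm_real, Complex.norm_real,
      Real.norm_eq_abs, Real.norm_eq_abs, abs_of_nonneg hr, mul_one] at h5
    exact h5
  have h5 : r ≤ N * (‖φ‖ / |η|) := by
    rw [mul_div_assoc', le_div_iff₀ hη0]; exact h1
  have h6 : |s| * ‖φ‖ + r ≤ N * A := by
    have : N * A = N + 2 * (N * (‖φ‖ / |η|)) := by rw [hA]; ring
    rw [this]; linarith
  have h7 : min 1 ‖φ‖ * (r + |s|) ≤ |s| * ‖φ‖ + r := by
    have a1 : min 1 ‖φ‖ ≤ 1 := min_le_left _ _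
    have a2 : min 1 ‖φ‖ ≤ ‖φ‖ := min_le_right _ _
    nlinarith [abs_nonneg s, mul_le_mul_of_nonneg_right a1 hr,
      mul_le_mul_of_nonneg_right a2 (abs_nonneg s)]
  rw [div_mul_eq_mul_div, div_le_iff₀ hA0]
  linarith

/-- The property to be proved on a set of parameters. -/
def PD (f : ℂ[X]) (e : ℂ) (S : Set ℝ) : Prop :=
  ∃ c > (0 : ℝ), ∃ ε > (0 : ℝ), ∀ r : ℝ, 0 < r → r < ε → ∀ t ∈ S,
    c * (r + ‖f.eval (t : ℂ)‖) ≤ ‖(r : ℂ) * e - f.eval (t : ℂ)‖

lemma PD_local (f : ℂ[X]) (hf : f ≠ 0) (e : ℂ) (he : ‖e‖ = 1)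
    (hdir : ∀ t₀ ∈ f.roots, (e * (starRingEnd ℂ)
      ((f /ₘ (X - C t₀) ^ f.rootMultiplicity t₀).eval t₀)).im ≠ 0) (t₀ : ℝ) :
    ∃ U ∈ 𝓝 t₀, PD f e U := by
  by_cases h0 : f.eval (t₀ : ℂ) = 0
  · set k := f.rootMultiplicity (t₀ : ℂ) with hk
    set g := f /ₘ (X - C (t₀ : ℂ)) ^ k with hg
    have hφ : g.eval (t₀ : ℂ) ≠ 0 := Polynomial.eval_divByMonic_pow_rootMultiplicity_ne_zero _ hf
    have hfg : ∀ t : ℂ, f.eval t = (t - t₀) ^ k * g.eval t := by
      intro t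
      conv_lhs => rw [← Polynomial.pow_mul_divByMonic_rootMultiplicity_eq f (t₀ : ℂ)]
      simp [hg, hk]
    have hd := hdir (t₀ : ℂ) ((Polynomial.mem_roots hf).2 h0)
    obtain ⟨c, hc, hin⟩ := plane_ineq e (g.eval (t₀ : ℂ)) he hφ hd
    have hcont : Tendsto (fun t : ℝ => g.eval (t : ℂ)) (𝓝 t₀) (𝓝 (g.eval (t₀ : ℂ))) := by
      have : Continuous (fun t : ℝ => g.eval (t : ℂ)) :=
        g.continuous.comp Complex.continuous_ofReal
      exact this.tendsto t₀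
    have hev : ∀ᶠ t : ℝ in 𝓝 t₀, ‖g.eval (t : ℂ) - g.eval (t₀ : ℂ)‖ < min (c / 2) 1 := by
      have := (Metric.tendsto_nhds.1 hcont) (min (c / 2) 1) (by positivity)
      simpa [dist_eq_norm] using this
    refine ⟨_, hev, (c / 2) / (‖g.eval (t₀ : ℂ)‖ + 1), by positivity, 1, one_pos, ?_⟩
    intro r hr _ t ht
    have ht' : ‖g.eval (t : ℂ) - g.eval (t₀ : ℂ)‖ < min (c / 2) 1 := ht
    set s : ℝ := (t - t₀) ^ k with hs
    have hft : f.eval (t : ℂ) = (s : ℂ) * g.eval (t : ℂ) := by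
      rw [hfg, hs]; push_cast; ring
    have h1 := hin r s hr.le
    have h2 : (r : ℂ) * e - f.eval (t : ℂ) = ((r : ℂ) * e - (s : ℂ) * g.eval (t₀ : ℂ))
        - (s : ℂ) * (g.eval (t : ℂ) - g.eval (t₀ : ℂ)) := by rw [hft]; ring
    have h3 : ‖(s : ℂ) * (g.eval (t : ℂ) - g.eval (t₀ : ℂ))‖ ≤ |s| * (c / 2) := by
      rw [norm_mul, Complex.norm_real, Real.norm_eq_abs]
      exact mul_le_mul_of_nonneg_left (ht'.le.trans (min_le_left _ _)) (abs_nonneg _)
    have h4 : (c / 2) * (r + |s|) ≤ ‖(r : ℂ) * e - f.eval (t : ℂ)‖ := by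
      rw [h2]
      have := norm_sub_norm_le ((r : ℂ) * e - (s : ℂ) * g.eval (t₀ : ℂ))
        ((s : ℂ) * (g.eval (t : ℂ) - g.eval (t₀ : ℂ)))
      nlinarith [abs_nonneg s]
    have h5 : ‖f.eval (t : ℂ)‖ ≤ |s| * (‖g.eval (t₀ : ℂ)‖ + 1) := by
      rw [hft, norm_mul, Complex.norm_real, Real.norm_eq_abs]
      refine mul_le_mul_of_nonneg_left ?_ (abs_nonneg _)
      have := norm_sub_norm_le (g.eval (t : ℂ)) (g.eval (t₀ : ℂ))
      have := ht'.le.trans (min_le_right _ _)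
      linarith
    have h6 : r + ‖f.eval (t : ℂ)‖ ≤ (‖g.eval (t₀ : ℂ)‖ + 1) * (r + |s|) := by
      have : 0 ≤ ‖g.eval (t₀ : ℂ)‖ := norm_nonneg _
      nlinarith [mul_nonneg this hr.le]
    have hD : 0 < ‖g.eval (t₀ : ℂ)‖ + 1 := by positivity
    calc c / 2 / (‖g.eval (t₀ : ℂ)‖ + 1) * (r + ‖f.eval (t : ℂ)‖)
        ≤ c / 2 / (‖g.eval (t₀ : ℂ)‖ + 1) * ((‖g.eval (t₀ : ℂ)‖ + 1) * (r + |s|)) :=
          mul_le_mul_of_nonneg_left h6 (by positivity)
      _ = c / 2 * (r + |s|) := by field_simp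
      _ ≤ _ := h4
  · have hpos : 0 < ‖f.eval (t₀ : ℂ)‖ := norm_pos_iff.2 h0
    have hcont : Continuous (fun t : ℝ => ‖f.eval (t : ℂ)‖) :=
      (f.continuous.comp Complex.continuous_ofReal).norm
    have hev : ∀ᶠ t : ℝ in 𝓝 t₀, ‖f.eval (t₀ : ℂ)‖ / 2 < ‖f.eval (t : ℂ)‖ :=
      (hcont.tendsto t₀).eventually (lt_mem_nhds (by simpa using half_lt_self hpos))
    refine ⟨_, hev, 1 / 3, by norm_num, ‖f.eval (t₀ : ℂ)‖ / 4, by positivity, ?_⟩
    intro r hr hr2 t ht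
    have ht' : ‖f.eval (t₀ : ℂ)‖ / 2 < ‖f.eval (t : ℂ)‖ := ht
    have h1 := norm_sub_norm_le (f.eval (t : ℂ)) ((r : ℂ) * e)
    rw [norm_sub_rev, norm_mul ((r : ℂ)), he, Complex.norm_real, Real.norm_eq_abs,
      abs_of_pos hr, mul_one] at h1
    linarith

theorem DIR : S_DIR := by
  intro f hf
  -- a good direction
  have hfin : ({e : ℂ | ‖e‖ = 1 ∧ ∃ t₀ ∈ f.roots, (e * (starRingEnd ℂ)
      ((f /ₘ (X - C t₀) ^ f.rootMultiplicity t₀).eval t₀)).im = 0}).Finite := by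
    have : {e : ℂ | ‖e‖ = 1 ∧ ∃ t₀ ∈ f.roots, (e * (starRingEnd ℂ)
      ((f /ₘ (X - C t₀) ^ f.rootMultiplicity t₀).eval t₀)).im = 0} ⊆
      ⋃ t₀ ∈ f.roots.toFinset, ({(f /ₘ (X - C t₀) ^ f.rootMultiplicity t₀).eval t₀ /
          (‖(f /ₘ (X - C t₀) ^ f.rootMultiplicity t₀).eval t₀‖ : ℂ),
        -((f /ₘ (X - C t₀) ^ f.rootMultiplicity t₀).eval t₀ /
          (‖(f /ₘ (X - C t₀) ^ f.rootMultiplicity t₀).eval t₀‖ : ℂ))} : Set ℂ) := by
      rintro e ⟨he, t₀, ht₀, him⟩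
      simp only [Set.mem_iUnion]
      refine ⟨t₀, Multiset.mem_toFinset.2 ht₀, ?_⟩
      set φ := (f /ₘ (X - C t₀) ^ f.rootMultiplicity t₀).eval t₀ with hφ
      have hφ0 : φ ≠ 0 := Polynomial.eval_divByMonic_pow_rootMultiplicity_ne_zero _ hf
      have hn : (‖φ‖ : ℂ) ≠ 0 := by
        exact_mod_cast (norm_ne_zero_iff.2 hφ0)
      set x : ℝ := (e * (starRingEnd ℂ) φ).re with hx
      have h1 : e * (starRingEnd ℂ) φ = (x : ℂ) := by
        apply Complex.ext <;> simp [hx, him]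
      have h2 : |x| = ‖φ‖ := by
        have := congrArg norm h1
        rw [norm_mul, he, RCLike.norm_conj, Complex.norm_real, one_mul, Real.norm_eq_abs] at this
        exact this.symm
      have h3 : e * (‖φ‖ : ℂ) ^ 2 = (x : ℂ) * φ := by
        have h4 : (starRingEnd ℂ) φ * φ = ((‖φ‖ : ℂ)) ^ 2 := by
          rw [mul_comm, Complex.mul_conj, Complex.normSq_eq_norm_sq]; push_cast; rfl
        rw [← h4, ← mul_assoc, h1]
      rcases abs_eq_abs.1 (h2.trans (abs_of_nonneg (norm_nonneg φ)).symm) with h | h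
      · left
        rw [eq_div_iff hn]
        rw [h] at h3
        have : (‖φ‖ : ℂ) * (e * ‖φ‖) = (‖φ‖ : ℂ) * φ := by
          rw [← h3]; ring
        exact mul_left_cancel₀ hn this
      · right
        rw [Set.mem_singleton_iff, ← neg_div, eq_div_iff hn]
        rw [h] at h3
        have : (‖φ‖ : ℂ) * (e * ‖φ‖) = (‖φ‖ : ℂ) * (-φ) := by
          push_cast at h3
          linear_combination h3
        exact mul_left_cancel₀ hn this
    refine Set.Finite.subset ?_ this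
    refine Set.Finite.biUnion (Finset.finite_toSet _) (fun _ _ => ?_)
    exact Set.toFinite _
  have hinf : (Metric.sphere (0 : ℂ) 1).Infinite := by
    have : Set.range (fun n : ℕ => Complex.exp (((1 / ((n : ℝ) + 1) : ℝ) : ℂ) * Complex.I)) ⊆
        Metric.sphere (0 : ℂ) 1 := by
      rintro _ ⟨n, rfl⟩
      simp only [mem_sphere_zero_iff_norm]
      exact Complex.norm_exp_ofReal_mul_I _
    refine Set.Infinite.mono this (Set.infinite_range_of_injective ?_)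
    intro a b hab
    have hab' : Complex.exp (((1 / ((a : ℝ) + 1) : ℝ) : ℂ) * Complex.I) =
      Complex.exp (((1 / ((b : ℝ) + 1) : ℝ) : ℂ) * Complex.I) := hab
    have hb : ∀ n : ℕ, (1 / ((n : ℝ) + 1) : ℝ) ∈ Set.Ioc (-Real.pi) Real.pi := by
      intro n
      have h1 : (0 : ℝ) < 1 / ((n : ℝ) + 1) := by positivity
      have h2 : 1 / ((n : ℝ) + 1) ≤ 1 := by
        rw [div_le_one (by positivity)]
        have : (0 : ℝ) ≤ n := Nat.cast_nonneg n
        linarith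
      have := Real.pi_gt_three
      constructor <;> linarith
    have h := congrArg Complex.arg hab'
    rw [Complex.arg_exp_mul_I, Complex.arg_exp_mul_I] at h
    rw [toIocMod_eq_self (by positivity) |>.2 (by have := hb a; constructor <;> [exact this.1; (have := this.2; linarith [Real.pi_pos])]),
      toIocMod_eq_self (by positivity) |>.2 (by have := hb b; constructor <;> [exact this.1; (have := this.2; linarith [Real.pi_pos])])] at h
    have h3 : ((a : ℝ) + 1) = (b : ℝ) + 1 := by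
      have ha : ((a : ℝ) + 1) ≠ 0 := by positivity
      have hb' : ((b : ℝ) + 1) ≠ 0 := by positivity
      field_simp at h
      linarith
    exact_mod_cast (by linarith : (a : ℝ) = b)
  obtain ⟨e, he1, he2⟩ := hinf.exists_notMem_finite hfin
  have he : ‖e‖ = 1 := by simpa using he1
  have hdir : ∀ t₀ ∈ f.roots, (e * (starRingEnd ℂ)
      ((f /ₘ (X - C t₀) ^ f.rootMultiplicity t₀).eval t₀)).im ≠ 0 := by
    intro t₀ ht₀ h
    exact he2 ⟨he, t₀, ht₀, h⟩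
  have hPD : PD f e (Set.Icc (-1 : ℝ) 1) := by
    refine isCompact_Icc.induction_on (p := PD f e) ?_ ?_ ?_ ?_
    · exact ⟨1, one_pos, 1, one_pos, fun r _ _ t ht => absurd ht (Set.notMem_empty t)⟩
    · rintro S T hST ⟨c, hc, ε, hε, h⟩
      exact ⟨c, hc, ε, hε, fun r h1 h2 t ht => h r h1 h2 t (hST ht)⟩
    · rintro S T ⟨c, hc, ε, hε, h⟩ ⟨c', hc', ε', hε', h'⟩
      refine ⟨min c c', lt_min hc hc', min ε ε', lt_min hε hε', ?_⟩
      intro r hr hr2 t ht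
      have hnn : 0 ≤ r + ‖f.eval (t : ℂ)‖ := by positivity
      rcases ht with ht | ht
      · exact (mul_le_mul_of_nonneg_right (min_le_left _ _) hnn).trans
          (h r hr (hr2.trans_le (min_le_left _ _)) t ht)
      · exact (mul_le_mul_of_nonneg_right (min_le_right _ _) hnn).trans
          (h' r hr (hr2.trans_le (min_le_right _ _)) t ht)
    · intro t₀ _
      obtain ⟨U, hU, hPU⟩ := PD_local f hf e he hdir t₀
      exact ⟨U, mem_nhdsWithin_of_mem_nhds hU, hPU⟩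
  obtain ⟨c, hc, ε, hε, h⟩ := hPD
  exact ⟨e, he, c, hc, ε, hε, h⟩

end Run7.h704.IM
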